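import Pool.Agent.H98.KS.Targets3

/-! Module FJ of ks_modules: Fejer interpolation. -/

set_option autoImplicit false

open scoped BigOperators

namespace Pool.Agent.H14.KS

open Pool.Agent.H98.KS

theorem ee_add (x y : ℝ) : ee (x + y) = ee x * ee y := by
  unfold ee
  rw [← Complex.exp_add]
  congr 1
  push_cast
  ring

theorem ee_zero : ee 0 = 1 := by
  unfold ee
  simp

theorem ee_int (n : ℤ) : ee n = 1 := by
  unfold ee
  rw [Complex.exp_eq_one_iff]
  exact ⟨n, by push_cast; ring⟩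

theorem ee_eq_one_iff (x : ℝ) : ee x = 1 ↔ ∃ n : ℤ, x = n := by
  unfold ee
  rw [Complex.exp_eq_one_iff]
  constructor
  · rintro ⟨n, hn⟩
    refine ⟨n, ?_⟩
    have h : (2 * (Real.pi : ℂ) * Complex.I) * (x : ℂ) = (2 * (Real.pi : ℂ) * Complex.I) * (n : ℂ) := by
      linear_combination hn
    have h2 := mul_left_cancel₀ Complex.two_pi_I_ne_zero h
    exact_mod_cast h2
  · rintro ⟨n, rfl⟩
    exact ⟨n, by push_cast; ring⟩

theorem norm_ee (x : ℝ) : ‖ee x‖ = 1 := by
  unfold ee
  rw [show (2 * (Real.pi : ℂ) * x * Complex.I) = ((2 * Real.pi * x : ℝ) : ℂ) * Complex.I by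
    push_cast; ring]
  exact Complex.norm_exp_ofReal_mul_I _

theorem ee_nat_mul (n : ℕ) (x : ℝ) : ee (n * x) = ee x ^ n := by
  unfold ee
  rw [← Complex.exp_nat_mul]
  congr 1
  push_cast
  ring

theorem conj_ee (x : ℝ) : (starRingEnd ℂ) (ee x) = ee (-x) := by
  unfold ee
  rw [← Complex.exp_conj]
  congr 1
  rw [show (2 * (Real.pi : ℂ) * x * Complex.I) = ((2 * Real.pi * x : ℝ) : ℂ) * Complex.I by
    push_cast; ring, map_mul, Complex.conj_ofReal, Complex.conj_I]
  push_cast
  ring

theorem norm_ee_sub_le (x y : ℝ) : ‖ee x - ee y‖ ≤ 2 * Real.pi * |x - y| := by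
  have h1 : ee x - ee y = ee y * (ee (x - y) - 1) := by
    have : ee x = ee y * ee (x - y) := by
      rw [← ee_add]
      congr 1
      ring
    rw [this]
    ring
  rw [h1, norm_mul, norm_ee, one_mul]
  have h2 := Real.norm_exp_I_mul_ofReal_sub_one_le (x := 2 * Real.pi * (x - y))
  have h3 : ee (x - y) = Complex.exp (Complex.I * ((2 * Real.pi * (x - y) : ℝ) : ℂ)) := by
    unfold ee
    congr 1
    push_cast
    ring
  rw [h3]
  refine h2.trans (le_of_eq ?_)
  rw [Real.norm_eq_abs, abs_mul, abs_of_pos Real.two_pi_pos]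

/-- orthogonality -/
theorem sum_ee (q : ℕ) (hq : 1 ≤ q) (m : ℤ) :
    ∑ b ∈ Finset.range q, ee ((m : ℝ) * b / q) = if (q : ℤ) ∣ m then (q : ℂ) else 0 := by
  have hq0 : (q : ℝ) ≠ 0 := by positivity
  have hterm : ∀ b ∈ Finset.range q, ee ((m : ℝ) * b / q) = ee ((m : ℝ) / q) ^ b := by
    intro b _
    rw [← ee_nat_mul]
    congr 1
    ring
  rw [Finset.sum_congr rfl hterm]
  split_ifs with h
  · obtain ⟨c, rfl⟩ := h
    have : ee (((q * c : ℤ) : ℝ) / q) = 1 := by
      have e : ((q * c : ℤ) : ℝ) / q = (c : ℤ) := by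
        push_cast
        field_simp
      rw [e]
      exact ee_int c
    rw [this]
    simp
  · have hne : ee ((m : ℝ) / q) ≠ 1 := by
      intro h1
      obtain ⟨n, hn⟩ := (ee_eq_one_iff _).mp h1
      apply h
      refine ⟨n, ?_⟩
      rw [div_eq_iff hq0] at hn
      have : (m : ℝ) = ((n * q : ℤ) : ℝ) := by rw [hn]; push_cast; ring
      have h3 : m = n * q := by exact_mod_cast this
      rw [h3]
      ring
    have hpow : ee ((m : ℝ) / q) ^ q = 1 := by
      rw [← ee_nat_mul]
      have e : (q : ℝ) * ((m : ℝ) / q) = (m : ℤ) := by field_simp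
      rw [e]
      exact ee_int m
    rw [geom_sum_eq hne, hpow]
    simp

/-- the Fejer kernel as a double sum -/
noncomputable def FF (q : ℕ) (x : ℝ) : ℂ :=
  (1 / (q : ℂ) ^ 2) * ∑ i ∈ Finset.range q, ∑ j ∈ Finset.range q, ee (((i : ℝ) - j) * x)

theorem FF_eq (q : ℕ) (x : ℝ) :
    FF q x = ((‖(1 / (q : ℂ)) * ∑ i ∈ Finset.range q, ee (i * x)‖ ^ 2 : ℝ) : ℂ) := by
  push_cast
  rw [← Complex.mul_conj', map_mul, map_sum]
  simp only [conj_ee]
  unfold FF
  have h1 : (∑ i ∈ Finset.range q, ee (i * x)) * ∑ j ∈ Finset.range q, ee (-(j * x)) =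
      ∑ i ∈ Finset.range q, ∑ j ∈ Finset.range q, ee (((i : ℝ) - j) * x) := by
    rw [Finset.sum_mul_sum]
    refine Finset.sum_congr rfl fun i _ => Finset.sum_congr rfl fun j _ => ?_
    rw [← ee_add]
    congr 1
    ring
  rw [← h1]
  simp only [map_div₀, map_one, Complex.conj_natCast]
  ring

theorem FF_sum (q : ℕ) (hq : 1 ≤ q) (x : ℝ) :
    ∑ b ∈ Finset.range q, FF q (x - b / q) = 1 := by
  have hq0 : (q : ℂ) ≠ 0 := by
    have : (q : ℝ) ≠ 0 := by positivity
    exact_mod_cast this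
  unfold FF
  rw [← Finset.mul_sum, Finset.sum_comm]
  have h1 : ∀ i ∈ Finset.range q, ∑ b ∈ Finset.range q, ∑ j ∈ Finset.range q,
      ee (((i : ℝ) - j) * (x - b / q)) = q := by
    intro i hi
    rw [Finset.sum_comm]
    have h2 : ∀ j ∈ Finset.range q, ∑ b ∈ Finset.range q, ee (((i : ℝ) - j) * (x - b / q)) =
        if j = i then (q : ℂ) else 0 := by
      intro j hj
      have h3 : ∀ b ∈ Finset.range q, ee (((i : ℝ) - j) * (x - b / q)) =
          ee (((i : ℝ) - j) * x) * ee ((((j : ℤ) - i : ℤ) : ℝ) * b / q) := by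
        intro b _
        rw [← ee_add]
        congr 1
        push_cast
        ring
      rw [Finset.sum_congr rfl h3, ← Finset.mul_sum, sum_ee q hq]
      rw [Finset.mem_range] at hi hj
      by_cases hij : j = i
      · subst hij
        simp [ee_zero]
      · rw [if_neg, if_neg hij, mul_zero]
        intro hd
        apply hij
        have := Int.eq_zero_of_abs_lt_dvd hd (by rw [abs_lt]; omega)
        omega
    rw [Finset.sum_congr rfl h2]
    simp only [Finset.sum_ite_eq', hi, if_true]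
  rw [Finset.sum_congr rfl h1]
  simp
  field_simp

theorem FF_int (q : ℕ) (hq : 1 ≤ q) (m : ℤ) :
    FF q ((m : ℝ) / q) = if (q : ℤ) ∣ m then 1 else 0 := by
  have hq0 : (q : ℂ) ≠ 0 := by
    have : (q : ℝ) ≠ 0 := by positivity
    exact_mod_cast this
  rw [FF_eq]
  have h : ∑ i ∈ Finset.range q, ee (i * ((m : ℝ) / q)) = if (q : ℤ) ∣ m then (q : ℂ) else 0 := by
    rw [← sum_ee q hq m]
    refine Finset.sum_congr rfl fun i _ => ?_
    congr 1
    ring
  rw [h]
  split_ifs
  · rw [one_div, inv_mul_cancel₀ hq0]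
    simp
  · simp

theorem FF_lip (q : ℕ) (hq : 1 ≤ q) (x y : ℝ) : ‖FF q x - FF q y‖ ≤ 8 * q * |x - y| := by
  have hq0 : (0 : ℝ) < q := by exact_mod_cast hq
  unfold FF
  rw [← mul_sub, ← Finset.sum_sub_distrib, norm_mul]
  have h1 : ‖∑ i ∈ Finset.range q, (∑ j ∈ Finset.range q, ee (((i : ℝ) - j) * x) -
      ∑ j ∈ Finset.range q, ee (((i : ℝ) - j) * y))‖ ≤
      ∑ i ∈ Finset.range q, ∑ j ∈ Finset.range q, 8 * q * |x - y| := by
    refine norm_sum_le_of_le _ fun i hi => ?_
    rw [← Finset.sum_sub_distrib]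
    refine norm_sum_le_of_le _ fun j hj => ?_
    refine (norm_ee_sub_le _ _).trans ?_
    rw [Finset.mem_range] at hi hj
    have hij : |(i : ℝ) - j| ≤ q := by
      have hi' : (i : ℝ) < q := by exact_mod_cast hi
      have hj' : (j : ℝ) < q := by exact_mod_cast hj
      have hi0 : (0 : ℝ) ≤ i := Nat.cast_nonneg i
      have hj0 : (0 : ℝ) ≤ j := Nat.cast_nonneg j
      rw [abs_le]
      constructor <;> linarith
    rw [← mul_sub, abs_mul]
    have hpi : 2 * Real.pi ≤ 8 := by linarith [Real.pi_lt_four]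
    calc 2 * Real.pi * (|(i : ℝ) - j| * |x - y|) ≤ 8 * (q * |x - y|) := by gcongr
      _ = 8 * q * |x - y| := by ring
  have h2 : ‖(1 : ℂ) / (q : ℂ) ^ 2‖ = 1 / (q : ℝ) ^ 2 := by simp
  rw [h2]
  calc 1 / (q : ℝ) ^ 2 * _ ≤ 1 / (q : ℝ) ^ 2 *
        ∑ i ∈ Finset.range q, ∑ j ∈ Finset.range q, 8 * q * |x - y| := by gcongr
    _ = 8 * q * |x - y| := by
      simp only [Finset.sum_const, Finset.card_range, nsmul_eq_mul]
      field_simp

/-- the coefficients -/
noncomputable def cc (q : ℕ) (g : ℤ → ℂ) (n : ℤ) : ℂ :=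
  ∑ i ∈ Finset.range q, ∑ j ∈ Finset.range q, if (j : ℤ) - i = n then
    (1 / (q : ℂ) ^ 2) * ∑ b ∈ Finset.range q, g b * ee (-(((i : ℝ) - j) * (b / q))) else 0

theorem vs_cc (q : ℕ) (g : ℤ → ℂ) (ξ : ℝ) :
    vs q (cc q g) ξ = ∑ b ∈ Finset.range q, g b * FF q (ξ - b / q) := by
  unfold vs cc
  have h1 : ∀ n ∈ Finset.Icc (-(q : ℤ)) q,
      (∑ i ∈ Finset.range q, ∑ j ∈ Finset.range q, if (j : ℤ) - i = n then
        (1 / (q : ℂ) ^ 2) * ∑ b ∈ Finset.range q, g b * ee (-(((i : ℝ) - j) * (b / q))) else 0) *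
        ee (-(n * ξ)) =
      ∑ i ∈ Finset.range q, ∑ j ∈ Finset.range q, if (j : ℤ) - i = n then
        (1 / (q : ℂ) ^ 2) * ∑ b ∈ Finset.range q, g b * ee (((i : ℝ) - j) * (ξ - b / q)) else 0 := by
    intro n _
    rw [Finset.sum_mul]
    refine Finset.sum_congr rfl fun i _ => ?_
    rw [Finset.sum_mul]
    refine Finset.sum_congr rfl fun j _ => ?_
    split_ifs with h
    · rw [mul_assoc, Finset.sum_mul]
      congr 1
      refine Finset.sum_congr rfl fun b _ => ?_
      rw [mul_assoc, ← ee_add]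
      congr 2
      rw [← h]
      push_cast
      ring
    · simp
  rw [Finset.sum_congr rfl h1, Finset.sum_comm]
  have h2 : ∀ i ∈ Finset.range q, (∑ n ∈ Finset.Icc (-(q : ℤ)) q, ∑ j ∈ Finset.range q,
      if (j : ℤ) - i = n then (1 / (q : ℂ) ^ 2) *
        ∑ b ∈ Finset.range q, g b * ee (((i : ℝ) - j) * (ξ - b / q)) else 0) =
      ∑ j ∈ Finset.range q, (1 / (q : ℂ) ^ 2) *
        ∑ b ∈ Finset.range q, g b * ee (((i : ℝ) - j) * (ξ - b / q)) := by
    intro i hi
    rw [Finset.sum_comm]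
    refine Finset.sum_congr rfl fun j hj => ?_
    rw [Finset.sum_ite_eq, if_pos]
    rw [Finset.mem_range] at hi hj
    rw [Finset.mem_Icc]
    omega
  rw [Finset.sum_congr rfl h2]
  unfold FF
  have h3 : ∀ b ∈ Finset.range q, g b * ((1 / (q : ℂ) ^ 2) * ∑ i ∈ Finset.range q,
      ∑ j ∈ Finset.range q, ee (((i : ℝ) - j) * (ξ - b / q))) =
      ∑ i ∈ Finset.range q, ∑ j ∈ Finset.range q,
        (1 / (q : ℂ) ^ 2) * (g b * ee (((i : ℝ) - j) * (ξ - b / q))) := by
    intro b _
    rw [Finset.mul_sum, Finset.mul_sum]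
    refine Finset.sum_congr rfl fun i _ => ?_
    rw [Finset.mul_sum, Finset.mul_sum]
    refine Finset.sum_congr rfl fun j _ => ?_
    ring
  rw [Finset.sum_congr rfl h3]
  conv_rhs => rw [Finset.sum_comm]
  refine Finset.sum_congr rfl fun i _ => ?_
  conv_rhs => rw [Finset.sum_comm]
  refine Finset.sum_congr rfl fun j _ => ?_
  rw [Finset.mul_sum]

theorem ks_FJ : T_FJ := by
  intro q g γ hq hper hγ
  have hq0 : (0 : ℝ) < q := by exact_mod_cast hq
  have hγ0 : 0 ≤ γ := (norm_nonneg _).trans (hγ 0)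
  have hperk : ∀ (k : ℕ) (b : ℤ), g (b + q * k) = g b := by
    intro k
    induction k with
    | zero => intro b; simp
    | succ k ih =>
      intro b
      have : b + (q : ℤ) * ((k + 1 : ℕ) : ℤ) = (b + q * k) + q := by push_cast; ring
      rw [this, hper, ih]
  have hmod : ∀ b : ℤ, g (b % q) = g b := by
    intro b
    rcases le_total 0 (b / q) with h | h
    · have e := hperk (b / q).toNat (b % q)
      rw [Int.toNat_of_nonneg h] at e
      rw [← e]
      congr 1
      exact Int.emod_add_mul_ediv b q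
    · have e := hperk (-(b / q)).toNat b
      rw [Int.toNat_of_nonneg (by omega)] at e
      rw [← e]
      congr 1
      have := Int.emod_add_mul_ediv b q
      linarith
  refine ⟨cc q g, ?_, ?_, ?_⟩
  · intro n hn
    unfold cc
    refine Finset.sum_eq_zero fun i hi => Finset.sum_eq_zero fun j hj => ?_
    rw [if_neg]
    rw [Finset.mem_range] at hi hj
    intro h
    rw [← h] at hn
    have : |(j : ℤ) - i| < q := by rw [abs_lt]; omega
    omega
  · intro ξ
    rw [vs_cc]
    have hF : ∀ b ∈ Finset.range q, ‖g b * FF q (ξ - b / q)‖ ≤ γ * ‖FF q (ξ - b / q)‖ := by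
      intro b _
      rw [norm_mul]
      gcongr
      exact hγ _
    refine (norm_sum_le_of_le _ hF).trans ?_
    rw [← Finset.mul_sum]
    have h1 : ∑ b ∈ Finset.range q, ‖FF q (ξ - b / q)‖ = 1 := by
      have h2 := FF_sum q hq ξ
      have h3 : ∀ b ∈ Finset.range q, FF q (ξ - b / q) = ((‖FF q (ξ - b / q)‖ : ℝ) : ℂ) := by
        intro b _
        rw [FF_eq, Complex.norm_real, Real.norm_of_nonneg (by positivity)]
      rw [Finset.sum_congr rfl h3, ← Complex.ofReal_sum] at h2
      exact_mod_cast h2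
    rw [h1, mul_one]
  · intro b β
    rw [vs_cc]
    have h1 : g b = ∑ b' ∈ Finset.range q, g b' * FF q ((b : ℝ) / q - b' / q) := by
      have h2 : ∀ b' ∈ Finset.range q, g b' * FF q ((b : ℝ) / q - b' / q) =
          if b' = (b % q).toNat then g b' else 0 := by
        intro b' hb'
        have e : (b : ℝ) / q - b' / q = ((b - b' : ℤ) : ℝ) / q := by push_cast; ring
        rw [e, FF_int q hq]
        rw [Finset.mem_range] at hb'
        by_cases hd : (q : ℤ) ∣ b - b'
        · have h4 : b' = (b % q).toNat := by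
            have h5 : b % q = b' := by
              have h6 : b % q = (b' : ℤ) % q := by
                exact Int.emod_emod_of_dvd _ (dvd_refl _) ▸
                  (Int.emod_emod_of_dvd b (dvd_refl (q : ℤ))).symm ▸
                  (Int.emod_eq_emod_iff_emod_sub_eq_zero.mpr (Int.emod_eq_zero_of_dvd hd))
              rw [h6]
              exact Int.emod_eq_of_lt (by omega) (by exact_mod_cast hb')
            omega
          rw [if_pos hd, if_pos h4, mul_one]
        · rw [if_neg hd, mul_zero, if_neg]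
          intro h4
          apply hd
          have h5 : 0 ≤ b % q := Int.emod_nonneg _ (by omega)
          have h6 : (b' : ℤ) = b % q := by omega
          rw [h6]
          exact Int.dvd_self_sub_emod
      rw [Finset.sum_congr rfl h2, Finset.sum_ite_eq', if_pos]
      · rw [Int.toNat_of_nonneg (Int.emod_nonneg _ (by omega))]
        exact (hmod b).symm
      · rw [Finset.mem_range]
        have h5 : 0 ≤ b % q := Int.emod_nonneg _ (by omega)
        have h6 : b % q < q := Int.emod_lt_of_pos _ (by omega)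
        omega
    rw [h1, ← Finset.sum_sub_distrib]
    have h2 : ∀ b' ∈ Finset.range q, ‖g b' * FF q ((b : ℝ) / q + β - b' / q) -
        g b' * FF q ((b : ℝ) / q - b' / q)‖ ≤ γ * (8 * q * |β|) := by
      intro b' _
      rw [← mul_sub, norm_mul]
      have h3 := FF_lip q hq ((b : ℝ) / q + β - b' / q) ((b : ℝ) / q - b' / q)
      have e : (b : ℝ) / q + β - b' / q - ((b : ℝ) / q - b' / q) = β := by ring
      rw [e] at h3
      exact mul_le_mul (hγ _) h3 (norm_nonneg _) hγ0
    refine (norm_sum_le_of_le _ h2).trans (le_of_eq ?_)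
    simp only [Finset.sum_const, Finset.card_range, nsmul_eq_mul]
    ring

end Pool.Agent.H14.KS
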