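import Pool.Agent.H98.KS.Targets4

/-! Module L1 of ks_modules: solutions modulo powers of small primes. -/

set_option autoImplicit false

open scoped BigOperators

namespace Pool.Agent.H14.KS

open Pool.Agent.H98.KS

/-- Hensel's lemma for `x ^ k = a`, `a = 1` modulo `p ^ (2 v + 1)` -/
theorem hens (p k v : ℕ) (hp : p.Prime) (h1 : p ^ v ∣ k) (h2 : ¬ p ^ (v + 1) ∣ k)
    (a : ℤ) (ha : (p : ℤ) ^ (2 * v + 1) ∣ a - 1) :
    ∀ n : ℕ, ∃ x : ℤ, (p : ℤ) ^ (v + 1) ∣ x - 1 ∧ (p : ℤ) ^ (2 * v + 1 + n) ∣ x ^ k - a := by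
  intro n
  induction n with
  | zero =>
    refine ⟨1, by simp, ?_⟩
    rw [one_pow, add_zero]
    have := (dvd_neg (α := ℤ)).mpr ha
    rwa [neg_sub] at this
  | succ n ih =>
    obtain ⟨x, hx1, b, hb⟩ := ih
    obtain ⟨k', hk'⟩ := h1
    have hpk' : ¬ (p : ℤ) ∣ k' := by
      intro h
      apply h2
      have h3 : p ∣ k' := by exact_mod_cast h
      rw [hk', pow_succ]
      exact Nat.mul_dvd_mul_left _ h3
    have hpp : Prime (p : ℤ) := Nat.prime_iff_prime_int.mp hp
    have hpx : ¬ (p : ℤ) ∣ x := by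
      intro h
      have h3 : (p : ℤ) ∣ x - 1 := (dvd_pow_self _ (by omega)).trans hx1
      have h4 : (p : ℤ) ∣ 1 := by
        have := dvd_sub h h3
        simpa using this
      exact hpp.not_isUnit (isUnit_of_dvd_one h4)
    have hcop : IsCoprime ((k' : ℤ) * x ^ (k - 1)) (p : ℤ) := by
      rw [isCoprime_comm]
      rw [hpp.coprime_iff_not_dvd]
      intro h
      rcases hpp.dvd_or_dvd h with h | h
      · exact hpk' h
      · exact hpx (hpp.dvd_of_dvd_pow h)
    obtain ⟨u, w, huw⟩ := hcop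
    obtain ⟨e, he⟩ := Polynomial.powAddExpansion x ((p : ℤ) ^ (v + 1 + n) * (-b * u)) k
    refine ⟨x + (p : ℤ) ^ (v + 1 + n) * (-b * u), ?_, ?_⟩
    · have : x + (p : ℤ) ^ (v + 1 + n) * (-b * u) - 1 =
          (x - 1) + (p : ℤ) ^ (v + 1) * ((p : ℤ) ^ n * (-b * u)) := by
        rw [pow_add]
        ring
      rw [this]
      exact dvd_add hx1 (dvd_mul_right _ _)
    · rw [he]
      refine ⟨b * w + e * (b * u) ^ 2 * (p : ℤ) ^ n, ?_⟩
      have hkz : (k : ℤ) = (p : ℤ) ^ v * k' := by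
        rw [hk']
        push_cast
        ring
      have hxk : x ^ k = a + (p : ℤ) ^ (2 * v + 1 + n) * b := by linarith
      rw [hxk, hkz]
      have e1 : (p : ℤ) ^ (2 * v + 1 + (n + 1)) = (p : ℤ) ^ (2 * v + 1 + n) * p := by
        rw [← pow_succ]
        congr 1
      have e2 : (p : ℤ) ^ (2 * v + 1 + n) = (p : ℤ) ^ v * (p : ℤ) ^ (v + 1 + n) := by
        rw [← pow_add]
        congr 1
        omega
      have e3 : ((p : ℤ) ^ (v + 1 + n)) ^ 2 = (p : ℤ) ^ (2 * v + 1 + n) * p * (p : ℤ) ^ n := by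
        rw [← pow_mul, ← pow_succ, ← pow_add]
        congr 1
        omega
      have e4 : (k' : ℤ) * x ^ (k - 1) * u = 1 - w * p := by linarith
      rw [e1]
      have e5 : (p : ℤ) ^ v * k' * x ^ (k - 1) * ((p : ℤ) ^ (v + 1 + n) * (-b * u)) =
          -((p : ℤ) ^ (2 * v + 1 + n)) * b * ((k' : ℤ) * x ^ (k - 1) * u) := by
        rw [e2]
        ring
      rw [e5, e4, mul_pow, e3]
      ring

theorem sum_ind (k m c : ℕ) (hk : 1 ≤ k) (hc : c ≤ m) :
    ∑ i : Fin m, (if (i : ℕ) < c then 1 else 0) ^ k = c := by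
  rw [Fin.sum_univ_eq_sum_range (fun i => (if i < c then 1 else 0) ^ k)]
  have h : ∑ i ∈ Finset.range c, (if i < c then 1 else 0) ^ k =
      ∑ i ∈ Finset.range m, (if i < c then 1 else 0) ^ k := by
    refine Finset.sum_subset (Finset.range_mono hc) fun i _ hi => ?_
    rw [Finset.mem_range] at hi
    rw [if_neg hi, zero_pow (by omega)]
  rw [← h]
  have h2 : ∀ i ∈ Finset.range c, (if i < c then 1 else 0) ^ k = 1 := by
    intro i hi
    rw [Finset.mem_range] at hi
    rw [if_pos hi, one_pow]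
  rw [Finset.sum_congr rfl h2]
  simp

theorem ls_pos (k d p n l : ℕ) (hk : 1 ≤ k) (hp : p.Prime) (hd : p ^ n ≤ d) :
    1 ≤ LS k d (p ^ n) l := by
  unfold LS
  rw [Nat.one_le_iff_ne_zero, Ne, Finset.card_eq_zero, ← Ne, ← Finset.nonempty_iff_ne_empty]
  have hpn : 0 < p ^ n := pow_pos hp.pos n
  refine ⟨fun i => if (i : ℕ) < l % p ^ n then 1 else 0, ?_⟩
  rw [Finset.mem_filter, Fintype.mem_piFinset]
  constructor
  · intro i
    rw [Finset.mem_range]
    have := Nat.mod_lt l hpn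
    split_ifs with h <;> omega
  · rw [sum_ind k d (l % p ^ n) hk ((Nat.mod_lt l hpn).le.trans hd)]
    exact Nat.mod_modEq l _

/-- the last coordinate -/
theorem ls_ex (k m p v n l c : ℕ) (hk : 1 ≤ k) (hp : p.Prime) (h1 : p ^ v ∣ k)
    (h2 : ¬ p ^ (v + 1) ∣ k) (hc1 : 1 ≤ c) (hcm : c ≤ m + 1) (hcl : c ≡ l [MOD p ^ (2 * v + 1)])
    (hn : 2 * v + 1 ≤ n) (t : Fin m → ℕ) :
    ∃ x : ℕ, x < p ^ n ∧
      x ^ k + ∑ i : Fin m, ((if (i : ℕ) < c - 1 then 1 else 0) + p ^ (2 * v + 1) * t i) ^ k ≡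
        l [MOD p ^ n] := by
  set s : ℕ := ∑ i : Fin m, ((if (i : ℕ) < c - 1 then 1 else 0) + p ^ (2 * v + 1) * t i) ^ k with hs
  have hsm : s ≡ c - 1 [MOD p ^ (2 * v + 1)] := by
    have h3 := sum_ind k m (c - 1) hk (by omega)
    have h4 : s ≡ ∑ i : Fin m, (if (i : ℕ) < c - 1 then 1 else 0) ^ k [MOD p ^ (2 * v + 1)] := by
      rw [← ZMod.natCast_eq_natCast_iff, hs]
      have h5 : ((p ^ (2 * v + 1) : ℕ) : ZMod (p ^ (2 * v + 1))) = 0 := ZMod.natCast_self _
      push_cast at h5 ⊢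
      rw [h5]
      simp
    rw [h3] at h4
    exact h4
  have ha : (p : ℤ) ^ (2 * v + 1) ∣ ((l : ℤ) - s) - 1 := by
    have h5 : ((p ^ (2 * v + 1) : ℕ) : ℤ) ∣ ((c - 1 : ℕ) : ℤ) - s := (Nat.modEq_iff_dvd).mp hsm
    have h6 : ((p ^ (2 * v + 1) : ℕ) : ℤ) ∣ (l : ℤ) - c := (Nat.modEq_iff_dvd).mp hcl
    push_cast at h5 h6
    rw [Nat.cast_sub hc1] at h5
    have := dvd_add h5 h6
    have e : ((c : ℤ) - (1 : ℕ) - s) + ((l : ℤ) - c) = (l : ℤ) - s - 1 := by push_cast; ring
    rwa [e] at this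
  obtain ⟨x, -, hx⟩ := hens p k v hp h1 h2 _ ha (n - (2 * v + 1))
  rw [show 2 * v + 1 + (n - (2 * v + 1)) = n by omega] at hx
  have hpn : (0 : ℤ) < (p : ℤ) ^ n := by exact_mod_cast pow_pos hp.pos n
  refine ⟨(x % (p : ℤ) ^ n).toNat, ?_, ?_⟩
  · have h7 := Int.emod_lt_of_pos x hpn
    have h8 := Int.emod_nonneg x hpn.ne'
    have : ((x % (p : ℤ) ^ n).toNat : ℤ) < ((p ^ n : ℕ) : ℤ) := by
      rw [Int.toNat_of_nonneg h8]
      push_cast
      exact h7
    exact_mod_cast this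
  · rw [← Int.natCast_modEq_iff]
    push_cast
    rw [Int.toNat_of_nonneg (Int.emod_nonneg x hpn.ne')]
    have h9 : x % (p : ℤ) ^ n ≡ x [ZMOD (p : ℤ) ^ n] := Int.mod_modEq x _
    have h10 : x ^ k ≡ (l : ℤ) - s [ZMOD (p : ℤ) ^ n] := (Int.modEq_iff_dvd.mpr hx).symm
    have h11 := ((h9.pow k).trans h10).add_right (s : ℤ)
    rw [sub_add_cancel] at h11
    exact h11

theorem ks_L1 : T_L1 := by
  intro k d p v n l hk hp h1 h2 hd
  rcases le_total n (2 * v + 1) with hn | hn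
  · have h3 : 1 ≤ LS k d (p ^ n) l :=
      ls_pos k d p n l hk hp ((Nat.pow_le_pow_right hp.pos hn).trans hd)
    calc p ^ (n * (d - 1)) ≤ p ^ ((2 * v + 1) * (d - 1)) * 1 := by
          rw [mul_one]
          exact Nat.pow_le_pow_right hp.pos (Nat.mul_le_mul_right _ hn)
      _ ≤ _ := Nat.mul_le_mul_left _ h3
  · have hpg : 0 < p ^ (2 * v + 1) := pow_pos hp.pos _
    obtain ⟨m, rfl⟩ : ∃ m, d = m + 1 := ⟨d - 1, by omega⟩
    obtain ⟨c, hc1, hcd, hcl⟩ : ∃ c, 1 ≤ c ∧ c ≤ p ^ (2 * v + 1) ∧ c ≡ l [MOD p ^ (2 * v + 1)] := by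
      by_cases h0 : l % p ^ (2 * v + 1) = 0
      · refine ⟨p ^ (2 * v + 1), hpg, le_rfl, ?_⟩
        unfold Nat.ModEq
        rw [h0, Nat.mod_self]
      · exact ⟨l % p ^ (2 * v + 1), Nat.one_le_iff_ne_zero.mpr h0, (Nat.mod_lt l hpg).le,
          Nat.mod_modEq l _⟩
    have hex := ls_ex k m p v n l c hk hp h1 h2 hc1 (hcd.trans hd) hcl hn
    choose X hX1 hX2 using hex
    have hcard : (Fintype.piFinset (fun _ : Fin m =>
        Finset.range (p ^ (n - (2 * v + 1))))).card ≤ LS k (m + 1) (p ^ n) l := by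
      unfold LS
      refine Finset.card_le_card_of_injOn (fun t => Fin.cons (X t)
        (fun i : Fin m => (if (i : ℕ) < c - 1 then 1 else 0) + p ^ (2 * v + 1) * t i)) ?_ ?_
      · intro t ht
        rw [Finset.mem_coe, Fintype.mem_piFinset] at ht
        rw [Finset.mem_coe, Finset.mem_filter, Fintype.mem_piFinset]
        constructor
        · intro i
          refine Fin.cases ?_ (fun i => ?_) i
          · simp only [Fin.cons_zero, Finset.mem_range]
            exact hX1 t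
          · simp only [Fin.cons_succ, Finset.mem_range]
            have h3 := ht i
            rw [Finset.mem_range] at h3
            have h4 : p ^ (2 * v + 1) * (t i + 1) ≤ p ^ n := by
              calc p ^ (2 * v + 1) * (t i + 1) ≤ p ^ (2 * v + 1) * p ^ (n - (2 * v + 1)) :=
                    Nat.mul_le_mul_left _ h3
                _ = p ^ n := by rw [← pow_add]; congr 1; omega
            have h5 : 1 < p ^ (2 * v + 1) := Nat.one_lt_pow (by omega) hp.one_lt
            have h6 : (if (i : ℕ) < c - 1 then 1 else 0) ≤ 1 := by split_ifs <;> omega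
            rw [mul_add, mul_one] at h4
            omega
        · rw [Fin.sum_univ_succ]
          simp only [Fin.cons_zero, Fin.cons_succ]
          exact hX2 t
      · intro t _ t' _ h
        funext i
        have h3 := congrFun h i.succ
        simp only [Fin.cons_succ] at h3
        have h4 : p ^ (2 * v + 1) * t i = p ^ (2 * v + 1) * t' i := by omega
        exact Nat.eq_of_mul_eq_mul_left hpg h4
    rw [Fintype.card_piFinset] at hcard
    simp only [Finset.card_range, Finset.prod_const, Finset.card_univ, Fintype.card_fin] at hcard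
    rw [← pow_mul] at hcard
    rw [Nat.add_sub_cancel]
    calc p ^ (n * m) = p ^ ((2 * v + 1) * m) * p ^ ((n - (2 * v + 1)) * m) := by
          rw [← pow_add, ← add_mul]
          congr 2
          omega
      _ ≤ _ := Nat.mul_le_mul_left _ hcard

end Pool.Agent.H14.KS
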