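import Pool.Agent.H98.KS.Targets3

/-! Module UM of ks_modules: the main part of the maximal function. -/

set_option autoImplicit false

open scoped BigOperators

namespace Pool.Agent.H14.KS

open Pool.Agent.H98.KS

/-- the kernel after removal of the averages along `q Z^d` -/
noncomputable def Gc {d : ℕ} (q : ℕ) (c : ℤ → ℂ) (F : Finset (Fin d → ℤ)) (x : Fin d → ℤ) : ℂ :=
  conv (bx d (-(q : ℤ)) q) (fun y => ∏ i, c (y i))
    (Set.indicator (F : Set (Fin d → ℤ)) (fun _ => 1)) x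

theorem prod_uk {d : ℕ} (q J : ℕ) (z : ℂ) (c : ℤ → ℂ) (y : Fin d → ℤ) :
    ∏ i, uk q J z c (y i) = z ^ d * (1 / (2 * (J : ℂ) + 1)) ^ d *
      ∑ j ∈ bx d (-(J : ℤ)) J, ∏ i, c (y i - q * j i) := by
  unfold uk bx
  rw [Finset.prod_mul_distrib, Finset.prod_const, Finset.card_univ, Fintype.card_fin, mul_pow]
  congr 1
  exact Finset.prod_univ_sum (fun _ : Fin d => Finset.Icc (-(J : ℤ)) J)
    (fun i j => c (y i - q * j))

theorem shift_sum {d : ℕ} (q J R : ℕ) (c : ℤ → ℂ)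
    (hc : ∀ n : ℤ, (q : ℤ) ≤ |n| → c n = 0) (hR : q * (J + 1) ≤ R) (F : Finset (Fin d → ℤ))
    (x j : Fin d → ℤ) (hj : j ∈ bx d (-(J : ℤ)) J) :
    ∑ y ∈ bx d (-(R : ℤ)) R, (∏ i, c (y i - q * j i)) *
      (Set.indicator (F : Set (Fin d → ℤ)) (fun _ => (1 : ℂ)) (x - y)) =
    Gc q c F (fun i => x i - q * j i) := by
  unfold Gc conv
  have hjb : ∀ i, -(J : ℤ) ≤ j i ∧ j i ≤ J := by
    intro i
    unfold bx at hj
    rw [Fintype.mem_piFinset] at hj
    exact Finset.mem_Icc.mp (hj i)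
  have hRz : (q : ℤ) * ((J : ℤ) + 1) ≤ R := by exact_mod_cast hR
  have hq0 : (0 : ℤ) ≤ q := by positivity
  refine Finset.sum_bij_ne_zero (fun y _ _ => fun i => y i - q * j i) ?_ ?_ ?_ ?_
  · intro y _ hne
    unfold bx
    rw [Fintype.mem_piFinset]
    intro i
    rw [Finset.mem_Icc]
    by_contra hcon
    apply hne
    have : c (y i - q * j i) = 0 := by
      apply hc
      by_contra hlt
      push Not at hlt
      rw [abs_lt] at hlt
      omega
    rw [Finset.prod_eq_zero (Finset.mem_univ i) this, zero_mul]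
  · intro y₁ _ _ y₂ _ _ h
    funext i
    have h5 : y₁ i - q * j i = y₂ i - q * j i := congrFun h i
    linarith
  · intro y' _ hne'
    refine ⟨fun i => y' i + q * j i, ?_, ?_, ?_⟩
    · unfold bx
      rw [Fintype.mem_piFinset]
      intro i
      rw [Finset.mem_Icc]
      have hlt : |y' i| < q := by
        by_contra hcon
        push Not at hcon
        apply hne'
        have h6 : ∏ i, c (y' i) = 0 := Finset.prod_eq_zero (Finset.mem_univ i) (hc _ hcon)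
        show (∏ i, c (y' i)) * _ = 0
        rw [h6, zero_mul]
      rw [abs_lt] at hlt
      have h1 : (q : ℤ) * j i ≤ q * J := mul_le_mul_of_nonneg_left (hjb i).2 hq0
      have h2 : (q : ℤ) * (-(J : ℤ)) ≤ q * j i := mul_le_mul_of_nonneg_left (hjb i).1 hq0
      constructor <;> nlinarith
    · intro h0
      apply hne'
      simp only [add_sub_cancel_right] at h0
      rw [← h0]
      congr 2
      funext i
      simp only [Pi.sub_apply]
      ring
    · funext i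
      ring
  · intro y _ _
    simp only
    congr 2
    funext i
    simp only [Pi.sub_apply]
    ring

theorem conv_uk {d : ℕ} (q J R : ℕ) (z : ℂ) (c : ℤ → ℂ)
    (hc : ∀ n : ℤ, (q : ℤ) ≤ |n| → c n = 0) (hR : q * (J + 1) ≤ R) (F : Finset (Fin d → ℤ))
    (x : Fin d → ℤ) :
    conv (bx d (-(R : ℤ)) R) (fun y => ∏ i, uk q J z c (y i))
      (Set.indicator (F : Set (Fin d → ℤ)) (fun _ => 1)) x =
    z ^ d * (1 / (2 * (J : ℂ) + 1)) ^ d *
      ∑ j ∈ bx d (-(J : ℤ)) J, Gc q c F (fun i => x i - q * j i) := by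
  have h1 : ∀ j ∈ bx d (-(J : ℤ)) J, Gc q c F (fun i => x i - q * j i) =
      ∑ y ∈ bx d (-(R : ℤ)) R, (∏ i, c (y i - q * j i)) *
        (Set.indicator (F : Set (Fin d → ℤ)) (fun _ => (1 : ℂ)) (x - y)) :=
    fun j hj => (shift_sum q J R c hc hR F x j hj).symm
  rw [Finset.sum_congr rfl h1, Finset.sum_comm, Finset.mul_sum]
  unfold conv
  refine Finset.sum_congr rfl fun y _ => ?_
  show (∏ i, uk q J z c (y i)) * _ = _
  rw [prod_uk, mul_assoc (z ^ d * (1 / (2 * (J : ℂ) + 1)) ^ d), Finset.sum_mul]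

theorem norm_conv_uk {d : ℕ} (q J R : ℕ) (z : ℂ) (c : ℤ → ℂ)
    (hc : ∀ n : ℤ, (q : ℤ) ≤ |n| → c n = 0) (hR : q * (J + 1) ≤ R) (F : Finset (Fin d → ℤ))
    (x : Fin d → ℤ) :
    ‖conv (bx d (-(R : ℤ)) R) (fun y => ∏ i, uk q J z c (y i))
      (Set.indicator (F : Set (Fin d → ℤ)) (fun _ => 1)) x‖ ≤
    ‖z‖ ^ d * avq q J (fun y => ‖Gc q c F y‖) x := by
  rw [conv_uk q J R z c hc hR F x, norm_mul, norm_mul, norm_pow, norm_pow]
  unfold avq
  have h1 : ‖(1 : ℂ) / (2 * (J : ℂ) + 1)‖ = 1 / (2 * (J : ℝ) + 1) := by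
    rw [norm_div, norm_one]
    congr 1
    have : (2 * (J : ℂ) + 1) = ((2 * (J : ℝ) + 1 : ℝ) : ℂ) := by push_cast; ring
    rw [this, Complex.norm_real, Real.norm_of_nonneg (by positivity)]
  rw [h1, mul_assoc, one_div_pow]
  gcongr
  exact norm_sum_le _ _

theorem ks_UM (hHLQ : T_HLQ) (hPK : T_PK) (hSP : T_SP) : T_UM := by
  intro d
  obtain ⟨C, hC0, hC⟩ := hHLQ d
  refine ⟨C, hC0, ?_⟩
  intro q z c γ F S J R hq hγ hc hvs hR
  classical
  set S' : Finset (Fin d → ℤ) := (F ×ˢ bx d (-(q : ℤ)) q).image (fun p => p.1 + p.2) with hS'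
  have hsupp : ∀ x, x ∉ S' → ‖Gc q c F x‖ = 0 := by
    intro x hx
    rw [norm_eq_zero]
    unfold Gc conv
    refine Finset.sum_eq_zero fun y hy => ?_
    rw [Set.indicator_of_notMem, mul_zero]
    intro hmem
    apply hx
    rw [hS', Finset.mem_image]
    refine ⟨(x - y, y), ?_, by simp⟩
    rw [Finset.mem_product]
    exact ⟨by exact_mod_cast hmem, hy⟩
  have hmain := hC q (fun y => ‖Gc q c F y‖) S' S J hq (fun x => norm_nonneg _) hsupp
  have hPK' := hPK d {0} (fun _ => bx d (-(q : ℤ)) q) (fun _ => fun y => ∏ i, c (y i)) F S'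
    (Set.indicator (F : Set (Fin d → ℤ)) (fun _ => 1)) (γ ^ (2 * d)) ?_ ?_
  · simp only [Finset.sum_singleton] at hPK'
    have hF : ∑ x ∈ F, ‖Set.indicator (F : Set (Fin d → ℤ)) (fun _ => (1 : ℂ)) x‖ ^ 2 = F.card := by
      rw [Finset.card_eq_sum_ones]
      push_cast
      refine Finset.sum_congr rfl fun x hx => ?_
      rw [Set.indicator_of_mem (by exact_mod_cast hx)]
      simp
    rw [hF] at hPK'
    have h1 : ∀ x ∈ S, ‖conv (bx d (-(R x : ℤ)) (R x)) (fun y => ∏ i, uk q (J x) z c (y i))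
        (Set.indicator (F : Set (Fin d → ℤ)) (fun _ => 1)) x‖ ^ 2 ≤
        ‖z‖ ^ (2 * d) * (avq q (J x) (fun y => ‖Gc q c F y‖) x) ^ 2 := by
      intro x hx
      have h2 := norm_conv_uk q (J x) (R x) z c hc (hR x hx) F x
      calc _ ≤ (‖z‖ ^ d * avq q (J x) (fun y => ‖Gc q c F y‖) x) ^ 2 := by gcongr
        _ = ‖z‖ ^ (2 * d) * (avq q (J x) (fun y => ‖Gc q c F y‖) x) ^ 2 := by
          rw [mul_pow, ← pow_mul, mul_comm d 2]
    calc _ ≤ ∑ x ∈ S, ‖z‖ ^ (2 * d) * (avq q (J x) (fun y => ‖Gc q c F y‖) x) ^ 2 :=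
          Finset.sum_le_sum h1
      _ = ‖z‖ ^ (2 * d) * ∑ x ∈ S, (avq q (J x) (fun y => ‖Gc q c F y‖) x) ^ 2 := by
          rw [Finset.mul_sum]
      _ ≤ ‖z‖ ^ (2 * d) * (C * ∑ x ∈ S', ‖Gc q c F x‖ ^ 2) := by gcongr
      _ ≤ ‖z‖ ^ (2 * d) * (C * (γ ^ (2 * d) * F.card)) := by
          gcongr
          exact hPK'
      _ = C * (‖z‖ * γ) ^ (2 * d) * F.card := by
          rw [mul_pow]
          ring
  · intro ξ
    rw [Finset.sum_singleton, hSP d q c ξ, norm_prod]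
    have h2 : ∏ i, ‖∑ n ∈ Finset.Icc (-(q : ℤ)) q, c n * ee (-(n * ξ i))‖ ≤ γ ^ d := by
      calc _ ≤ ∏ i : Fin d, γ :=
            Finset.prod_le_prod (fun i _ => norm_nonneg _) (fun i _ => hvs (ξ i))
        _ = γ ^ d := by simp
    have h3 : 0 ≤ ∏ i, ‖∑ n ∈ Finset.Icc (-(q : ℤ)) q, c n * ee (-(n * ξ i))‖ :=
      Finset.prod_nonneg fun i _ => norm_nonneg _
    calc _ ≤ (γ ^ d) ^ 2 := by gcongr
      _ = γ ^ (2 * d) := by rw [← pow_mul, mul_comm]
  · intro x hx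
    exact Set.indicator_of_notMem (by exact_mod_cast hx) _

end Pool.Agent.H14.KS
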