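import Pool.Agent.H98.KS.Targets5

/-! Module Z2 of ks_modules: the strong type bound. -/

set_option autoImplicit false

open scoped BigOperators ENNReal NNReal

namespace Pool.Agent.H14.KS

open Pool.Agent.H98.KS

/-- powers of two -/
noncomputable def P2 (j : ℤ) : ℝ≥0∞ := ENNReal.ofReal ((2 : ℝ) ^ j)

theorem P2_eq (j : ℤ) : P2 j = (2 : ℝ≥0∞) ^ j := by
  unfold P2
  have h : ((2 : ℝ≥0∞) ^ j) = (((2 : ℝ≥0) ^ j : ℝ≥0) : ℝ≥0∞) := by
    rw [ENNReal.coe_zpow (by norm_num)]
    norm_num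
  rw [h, ← ENNReal.ofReal_coe_nnreal]
  congr 1

theorem P2_mono {i j : ℤ} (h : i ≤ j) : P2 i ≤ P2 j := by
  unfold P2
  apply ENNReal.ofReal_le_ofReal
  exact zpow_le_zpow_right₀ (by norm_num) h

theorem P2_add_nat (i : ℤ) (n : ℕ) : P2 (i + n) = P2 i * ENNReal.ofReal ((2 : ℝ) ^ n) := by
  unfold P2
  rw [← ENNReal.ofReal_mul (by positivity), zpow_add₀ (by norm_num), zpow_natCast]

theorem dyadic_upper (y : ℝ≥0∞) (q : ℝ) (hq : 0 < q) :
    y ^ q ≤ ∑' i : ℤ, (if P2 (i + 2) < y then (P2 (i + 3)) ^ q else 0) := by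
  rcases eq_or_ne y 0 with rfl | h0
  · rw [ENNReal.zero_rpow_of_pos hq]
    exact zero_le
  rcases eq_or_ne y ⊤ with rfl | ht
  · by_contra hcon
    push Not at hcon
    have hfin := ENNReal.finite_const_le_of_tsum_ne_top (ne_top_of_lt hcon) one_ne_zero
    refine (Set.Ici_infinite (-3 : ℤ)) (hfin.subset ?_)
    intro i hi
    rw [Set.mem_Ici] at hi
    rw [Set.mem_ofPred_eq, if_pos (by unfold P2; exact ENNReal.ofReal_lt_top)]
    apply ENNReal.one_le_rpow _ hq
    have h1 : P2 0 ≤ P2 (i + 3) := P2_mono (by omega)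
    have h2 : P2 0 = 1 := by unfold P2; simp
    rwa [h2] at h1
  · obtain ⟨n, hn1, hn2⟩ := ENNReal.exists_mem_Ioc_zpow h0 ht (y := 2) (by norm_num) (by norm_num)
    refine le_trans ?_ (ENNReal.le_tsum (n - 2))
    rw [← P2_eq] at hn1 hn2
    rw [show n - 2 + 2 = n by ring, if_pos hn1, show n - 2 + 3 = n + 1 by ring]
    exact ENNReal.rpow_le_rpow hn2 hq.le

/-- sum over the levels below and above `i` -/
theorem level_sum (M : ℤ → ℝ≥0∞) (i : ℤ) (a : ℝ) (ha : 0 < a) (ha2 : a < 1 / 2)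
    (h1 : ∀ j, M j ≤ 1) (h2 : ∀ n : ℕ, M (i + n) ≤ ENNReal.ofReal ((1 - 2 * a) * a ^ n)) :
    ∑' j : ℤ, P2 (j + 1) * M j ≤ P2 (i + 2) := by
  have hshift : ∑' j : ℤ, P2 (j + 1) * M j = ∑' j : ℤ, P2 (j + i + 1) * M (j + i) :=
    ((Equiv.addRight i).tsum_eq (fun j => P2 (j + 1) * M j)).symm
  rw [hshift, tsum_of_nat_of_neg_add_one ENNReal.summable ENNReal.summable]
  have hA : ∑' n : ℕ, P2 ((n : ℤ) + i + 1) * M ((n : ℤ) + i) ≤ P2 (i + 1) := by
    have hterm : ∀ n : ℕ, P2 ((n : ℤ) + i + 1) * M ((n : ℤ) + i) ≤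
        ENNReal.ofReal ((2 : ℝ) ^ (i + 1) * ((1 - 2 * a) * (2 * a) ^ n)) := by
      intro n
      rw [show (n : ℤ) + i + 1 = (i + 1) + n by ring, P2_add_nat, show (n : ℤ) + i = i + n by ring]
      calc P2 (i + 1) * ENNReal.ofReal ((2 : ℝ) ^ n) * M (i + n)
          ≤ P2 (i + 1) * ENNReal.ofReal ((2 : ℝ) ^ n) * ENNReal.ofReal ((1 - 2 * a) * a ^ n) := by
            gcongr
            exact h2 n
        _ = _ := by
            unfold P2
            rw [← ENNReal.ofReal_mul (by positivity), ← ENNReal.ofReal_mul (by positivity)]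
            congr 1
            rw [mul_pow]
            ring
    refine (ENNReal.tsum_le_tsum hterm).trans ?_
    have hsum : Summable fun n : ℕ => (2 : ℝ) ^ (i + 1) * ((1 - 2 * a) * (2 * a) ^ n) :=
      ((summable_geometric_of_lt_one (by positivity) (by linarith)).mul_left _).mul_left _
    rw [← ENNReal.ofReal_tsum_of_nonneg ?_ hsum]
    · unfold P2
      apply ENNReal.ofReal_le_ofReal
      rw [tsum_mul_left, tsum_mul_left, tsum_geometric_of_lt_one (by positivity) (by linarith),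
        mul_inv_cancel₀ (by linarith), mul_one]
    · intro n
      have : 0 < 1 - 2 * a := by linarith
      positivity
  have hB : ∑' n : ℕ, P2 (-((n : ℤ) + 1) + i + 1) * M (-((n : ℤ) + 1) + i) ≤ P2 (i + 1) := by
    have hterm : ∀ n : ℕ, P2 (-((n : ℤ) + 1) + i + 1) * M (-((n : ℤ) + 1) + i) ≤
        ENNReal.ofReal ((2 : ℝ) ^ i * (1 / 2) ^ n) := by
      intro n
      calc P2 (-((n : ℤ) + 1) + i + 1) * M (-((n : ℤ) + 1) + i)
          ≤ P2 (-((n : ℤ) + 1) + i + 1) * 1 := by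
            gcongr
            exact h1 _
        _ = _ := by
            unfold P2
            rw [mul_one]
            congr 1
            rw [show -((n : ℤ) + 1) + i + 1 = i + -(n : ℤ) by ring, zpow_add₀ (by norm_num),
              zpow_neg, zpow_natCast, one_div, inv_pow]
    refine (ENNReal.tsum_le_tsum hterm).trans ?_
    have hsum : Summable fun n : ℕ => (2 : ℝ) ^ i * (1 / 2) ^ n :=
      summable_geometric_two.mul_left _
    rw [← ENNReal.ofReal_tsum_of_nonneg (fun n => by positivity) hsum]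
    unfold P2
    apply ENNReal.ofReal_le_ofReal
    rw [tsum_mul_left, tsum_geometric_two, zpow_add₀ (by norm_num), zpow_one]
  calc _ ≤ P2 (i + 1) + P2 (i + 1) := add_le_add hA hB
    _ = P2 (i + 2) := by
      unfold P2
      rw [← ENNReal.ofReal_add (by positivity) (by positivity)]
      congr 1
      rw [show i + 2 = (i + 1) + 1 by ring, zpow_add₀ (by norm_num) (i + 1), zpow_one]
      ring

/-- counting by finite subsets -/
theorem tsum_ind_le {α : Type} (A : α → Prop) [DecidablePred A] (B : ℝ)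
    (h : ∀ X : Finset α, (∀ x ∈ X, A x) → (X.card : ℝ) ≤ B) :
    ∑' x, (if A x then (1 : ℝ≥0∞) else 0) ≤ ENNReal.ofReal B := by
  refine ENNReal.summable.tsum_le_of_sum_le fun s => ?_
  rw [← Finset.sum_filter, Finset.sum_const, nsmul_eq_mul, mul_one]
  have h1 := h (s.filter A) (fun x hx => (Finset.mem_filter.mp hx).2)
  rw [← ENNReal.ofReal_natCast]
  exact ENNReal.ofReal_le_ofReal h1

/-- sum over the levels of `|f|` -/
theorem level_card {α : Type} [DecidableEq α] (g : α → ℝ) (q : ℝ) (hq : 0 < q) (E : ℤ → Finset α)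
    (hE : ∀ y j, y ∈ E j ↔ (2 : ℝ) ^ j < g y ∧ g y ≤ (2 : ℝ) ^ (j + 1)) :
    ∑' m : ℤ, (P2 m) ^ q * (E m).card ≤ ∑' y, (ENNReal.ofReal (g y)) ^ q := by
  have h1 : ∀ m : ℤ, (P2 m) ^ q * (E m).card = ∑' y, (if y ∈ E m then (P2 m) ^ q else 0) := by
    intro m
    rw [tsum_eq_sum (s := E m) (fun y hy => if_neg hy)]
    rw [Finset.sum_congr rfl (fun y hy => if_pos hy), Finset.sum_const, nsmul_eq_mul, mul_comm]
  simp_rw [h1]
  rw [ENNReal.tsum_comm]
  refine ENNReal.tsum_le_tsum fun y => ?_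
  by_cases hex : ∃ m, y ∈ E m
  · obtain ⟨m, hm⟩ := hex
    have huniq : ∀ m', m' ≠ m → (if y ∈ E m' then (P2 m') ^ q else 0) = 0 := by
      intro m' hne
      rw [if_neg]
      intro hm'
      have h2 := (hE y m).mp hm
      have h3 := (hE y m').mp hm'
      rcases lt_or_gt_of_ne hne with h | h
      · have h4 : (2 : ℝ) ^ (m' + 1) ≤ 2 ^ m := zpow_le_zpow_right₀ (by norm_num) (by omega)
        linarith [h2.1, h3.2]
      · have h4 : (2 : ℝ) ^ (m + 1) ≤ 2 ^ m' := zpow_le_zpow_right₀ (by norm_num) (by omega)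
        linarith [h2.2, h3.1]
    rw [tsum_eq_single m huniq, if_pos hm]
    apply ENNReal.rpow_le_rpow _ hq.le
    unfold P2
    exact ENNReal.ofReal_le_ofReal ((hE y m).mp hm).1.le
  · push Not at hex
    have : ∀ m, (if y ∈ E m then (P2 m) ^ q else 0) = 0 := fun m => if_neg (hex m)
    simp [this]

/-- the parameter `a` -/
theorem exists_a (p q : ℝ) (hp : 0 < p) (hpq : p < q) :
    ∃ a : ℝ, 0 < a ∧ a < 1 / 2 ∧ a ^ (-p) * 2 ^ (-q) < 1 := by
  have h1 : (2 : ℝ) ^ (-(q / p)) < 1 / 2 := by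
    have h2 : (1 : ℝ) / 2 = 2 ^ (-(1 : ℝ)) := by
      rw [Real.rpow_neg_one]
      norm_num
    rw [h2]
    apply Real.rpow_lt_rpow_of_exponent_lt (by norm_num)
    have : 1 < q / p := by rwa [one_lt_div hp]
    linarith
  obtain ⟨a, ha1, ha2⟩ := exists_between h1
  have ha0 : 0 < a := lt_trans (by positivity) ha1
  refine ⟨a, ha0, ha2, ?_⟩
  have h3 : (2 : ℝ) ^ (-q) < a ^ p := by
    have h4 := Real.rpow_lt_rpow (by positivity) ha1 hp
    rw [← Real.rpow_mul (by norm_num)] at h4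
    have e : -(q / p) * p = -q := by field_simp
    rwa [e] at h4
  rw [Real.rpow_neg ha0.le, inv_mul_lt_one₀ (by positivity)]
  exact h3

theorem ks_Z2 (hZ0 : T_Z0) (hZB : T_ZB) : T_Z2 := by
  intro k d C q hk hkd hC hq
  classical
  obtain ⟨hC0, hC⟩ := hC
  have hdk : (0 : ℝ) < (d : ℝ) - k := by
    have : (k : ℝ) < d := by exact_mod_cast hkd
    linarith
  have hd0 : (0 : ℝ) < d := by exact_mod_cast (by omega : 0 < d)
  set p : ℝ := (d : ℝ) / ((d : ℝ) - k) with hp
  have hp0 : 0 < p := by positivity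
  have hq0 : 0 < q := hp0.trans hq
  obtain ⟨a, ha0, ha2, hr1⟩ := exists_a p q hp0 hq
  set r : ℝ := a ^ (-p) * 2 ^ (-q) with hr
  have hr0 : 0 < r := by positivity
  have h2a : 0 < 1 - 2 * a := by linarith
  set K : ℝ := C * 8 ^ q * (1 - 2 * a) ^ (-p) with hK
  have hK0 : 0 < K := by positivity
  have hKr : 0 < K * (1 - r)⁻¹ := by
    have : 0 < 1 - r := by linarith
    positivity
  refine ⟨(Real.toNNReal (K * (1 - r)⁻¹)) ^ (1 / q), ?_⟩
  intro f
  have hcoe : (((Real.toNNReal (K * (1 - r)⁻¹)) ^ (1 / q) : ℝ≥0) : ℝ≥0∞) =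
      (ENNReal.ofReal (K * (1 - r)⁻¹)) ^ (1 / q) := by
    rw [ENNReal.coe_rpow_of_nonneg _ (by positivity)]
    rfl
  rw [hcoe]
  unfold lqNorm
  rw [← ENNReal.mul_rpow_of_nonneg _ _ (by positivity)]
  apply ENNReal.rpow_le_rpow _ (by positivity)
  have henorm : ∀ y, ‖f y‖ₑ = ENNReal.ofReal ‖f y‖ := fun y => (ofReal_norm (f y)).symm
  by_cases hS : ∑' x, ‖f x‖ₑ ^ q = ⊤
  · rw [hS, ENNReal.mul_top]
    · exact le_top
    · exact (ENNReal.ofReal_pos.mpr hKr).ne'
  · -- finite levels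
    have hfin : ∀ j : ℤ, {y | (2 : ℝ) ^ j < ‖f y‖ ∧ ‖f y‖ ≤ (2 : ℝ) ^ (j + 1)}.Finite := by
      intro j
      have hP : (P2 j) ^ q ≠ 0 := by
        have h0 : 0 < P2 j := ENNReal.ofReal_pos.mpr (by positivity)
        exact (ENNReal.rpow_pos h0 (by unfold P2; exact ENNReal.ofReal_ne_top)).ne'
      refine (ENNReal.finite_const_le_of_tsum_ne_top hS hP).subset ?_
      intro y hy
      rw [Set.mem_ofPred_eq] at hy ⊢
      apply ENNReal.rpow_le_rpow _ hq0.le
      rw [henorm]
      exact ENNReal.ofReal_le_ofReal hy.1.le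
    set E : ℤ → Finset (Fin d → ℤ) := fun j => (hfin j).toFinset with hEdef
    have hE : ∀ y j, y ∈ E j ↔ (2 : ℝ) ^ j < ‖f y‖ ∧ ‖f y‖ ≤ (2 : ℝ) ^ (j + 1) := by
      intro y j
      rw [hEdef]
      simp only [Set.Finite.mem_toFinset, Set.mem_ofPred_eq]
    have hZB' := fun x => hZB k d f E x (by omega) hE
    -- the claim
    have hclaim : ∀ (i : ℤ) (x : Fin d → ℤ), P2 (i + 2) < maxOp k d f x → ∃ n : ℕ,
        ENNReal.ofReal ((1 - 2 * a) * a ^ n) <
          maxOp k d (Set.indicator (E (i + n) : Set (Fin d → ℤ)) (fun _ => 1)) x := by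
      intro i x hx
      by_contra hcon
      push Not at hcon
      have h1 := level_sum
        (fun j => maxOp k d (Set.indicator (E j : Set (Fin d → ℤ)) (fun _ => 1)) x) i a ha0 ha2
        (fun j => (hZ0 k d (E j) x 0 (by omega)).1) hcon
      exact absurd (hx.trans_le ((hZB' x).trans h1)) (lt_irrefl _)
    -- the count
    have hcount : ∀ (m : ℤ) (n : ℕ),
        ∑' x, (if ENNReal.ofReal ((1 - 2 * a) * a ^ n) <
          maxOp k d (Set.indicator (E m : Set (Fin d → ℤ)) (fun _ => 1)) x then (1 : ℝ≥0∞) else 0)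
        ≤ ENNReal.ofReal (C * ((1 - 2 * a) * a ^ n) ^ (-p) * (E m).card) := by
      intro m n
      apply tsum_ind_le
      intro X hX
      have hs0 : 0 < (1 - 2 * a) * a ^ n := by positivity
      have hs1 : (1 - 2 * a) * a ^ n ≤ 1 := by
        have h3 : a ^ n ≤ 1 := pow_le_one₀ ha0.le (by linarith)
        nlinarith
      refine hC (E m) X ((1 - 2 * a) * a ^ n) hs0 hs1 ?_
      intro x hx
      obtain ⟨l, hl1, hl2⟩ := (hZ0 k d (E m) x (Real.toNNReal ((1 - 2 * a) * a ^ n))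
        (by omega)).2 (hX x hx)
      rw [Real.coe_toNNReal _ hs0.le] at hl2
      exact ⟨l, hl1, hl2⟩
    have hterm : ∀ (m : ℤ) (n : ℕ), P2 (m - n + 3) ^ q *
        ENNReal.ofReal (C * ((1 - 2 * a) * a ^ n) ^ (-p) * (E m).card) =
        ENNReal.ofReal (K * r ^ n) * (P2 m ^ q * (E m).card) := by
      intro m n
      unfold P2
      rw [ENNReal.ofReal_rpow_of_pos (by positivity), ENNReal.ofReal_rpow_of_pos (by positivity),
        ← ENNReal.ofReal_natCast, ← ENNReal.ofReal_mul (by positivity),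
        ← ENNReal.ofReal_mul (by positivity), ← ENNReal.ofReal_mul (by positivity)]
      congr 1
      have e1 : (2 : ℝ) ^ (m - n + 3) = 2 ^ m * ((2 : ℝ) ^ n)⁻¹ * 8 := by
        rw [zpow_add₀ (by norm_num), zpow_sub₀ (by norm_num), zpow_natCast]
        norm_num
        ring
      rw [e1, Real.mul_rpow (by positivity) (by norm_num), Real.mul_rpow (by positivity)
        (by positivity), Real.mul_rpow h2a.le (by positivity)]
      have e2 : ((2 : ℝ) ^ n)⁻¹ ^ q = (2 ^ (-q)) ^ n := by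
        rw [Real.inv_rpow (by positivity), ← Real.rpow_natCast, ← Real.rpow_natCast,
          ← Real.rpow_mul (by norm_num), ← Real.rpow_mul (by norm_num),
          ← Real.rpow_neg (by norm_num)]
        congr 1
        ring
      have e3 : (a ^ n) ^ (-p) = (a ^ (-p)) ^ n := by
        rw [← Real.rpow_natCast, ← Real.rpow_natCast, ← Real.rpow_mul ha0.le,
          ← Real.rpow_mul ha0.le, mul_comm]
      rw [e2, e3, hK, hr, mul_pow]
      ring
    calc ∑' x, maxOp k d f x ^ q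
        ≤ ∑' x, ∑' i : ℤ, (if P2 (i + 2) < maxOp k d f x then (P2 (i + 3)) ^ q else 0) :=
          ENNReal.tsum_le_tsum fun x => dyadic_upper _ q hq0
      _ ≤ ∑' x, ∑' i : ℤ, ∑' n : ℕ, P2 (i + 3) ^ q *
          (if ENNReal.ofReal ((1 - 2 * a) * a ^ n) <
            maxOp k d (Set.indicator (E (i + n) : Set (Fin d → ℤ)) (fun _ => 1)) x
            then (1 : ℝ≥0∞) else 0) := by
          refine ENNReal.tsum_le_tsum fun x => ENNReal.tsum_le_tsum fun i => ?_
          split_ifs with hx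
          · obtain ⟨n, hn⟩ := hclaim i x hx
            refine le_trans ?_ (ENNReal.le_tsum n)
            rw [if_pos hn, mul_one]
          · exact zero_le
      _ = ∑' i : ℤ, ∑' n : ℕ, P2 (i + 3) ^ q * ∑' x,
          (if ENNReal.ofReal ((1 - 2 * a) * a ^ n) <
            maxOp k d (Set.indicator (E (i + n) : Set (Fin d → ℤ)) (fun _ => 1)) x
            then (1 : ℝ≥0∞) else 0) := by
          rw [ENNReal.tsum_comm]
          congr 1
          funext i
          rw [ENNReal.tsum_comm]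
          congr 1
          funext n
          rw [ENNReal.tsum_mul_left]
      _ ≤ ∑' i : ℤ, ∑' n : ℕ, P2 (i + 3) ^ q *
          ENNReal.ofReal (C * ((1 - 2 * a) * a ^ n) ^ (-p) * (E (i + n)).card) := by
          refine ENNReal.tsum_le_tsum fun i => ENNReal.tsum_le_tsum fun n => ?_
          gcongr
          exact hcount (i + n) n
      _ = ∑' n : ℕ, ∑' i : ℤ, P2 (i + 3) ^ q *
          ENNReal.ofReal (C * ((1 - 2 * a) * a ^ n) ^ (-p) * (E (i + n)).card) :=
          ENNReal.tsum_comm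
      _ = ∑' n : ℕ, ∑' m : ℤ, P2 (m - n + 3) ^ q *
          ENNReal.ofReal (C * ((1 - 2 * a) * a ^ n) ^ (-p) * (E m).card) := by
          congr 1
          funext n
          rw [← (Equiv.addRight (n : ℤ)).tsum_eq (fun m : ℤ => P2 (m - n + 3) ^ q *
            ENNReal.ofReal (C * ((1 - 2 * a) * a ^ n) ^ (-p) * (E m).card))]
          congr 1
          funext i
          simp only [Equiv.coe_addRight]
          rw [show i + (n : ℤ) - n + 3 = i + 3 by ring]
      _ = ∑' n : ℕ, ∑' m : ℤ, ENNReal.ofReal (K * r ^ n) * (P2 m ^ q * (E m).card) := by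
          simp_rw [hterm]
      _ = (∑' n : ℕ, ENNReal.ofReal (K * r ^ n)) * ∑' m : ℤ, (P2 m ^ q * (E m).card) := by
          simp_rw [ENNReal.tsum_mul_left]
          rw [ENNReal.tsum_mul_right]
      _ ≤ ENNReal.ofReal (K * (1 - r)⁻¹) * ∑' x, ‖f x‖ₑ ^ q := by
          have h5 : ∑' n : ℕ, ENNReal.ofReal (K * r ^ n) = ENNReal.ofReal (K * (1 - r)⁻¹) := by
            rw [← ENNReal.ofReal_tsum_of_nonneg (fun n => by positivity)
              ((summable_geometric_of_lt_one hr0.le hr1).mul_left K), tsum_mul_left,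
              tsum_geometric_of_lt_one hr0.le hr1]
          rw [h5]
          gcongr
          have h6 := level_card (fun y => ‖f y‖) q hq0 E hE
          simp_rw [henorm]
          exact h6

end Pool.Agent.H14.KS
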